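import Mathlib

/-!
# Trees of diameter at most 3 in two-coloured complete graphs

The colouring of the complete graph on nine vertices whose two colour classes are the rook graph of
the 3 by 3 board and its complement has no monochromatic tree of diameter at most three on eight
vertices.
-/

namespace Pool.Agent.Results.MP_f88521_co.DoubleStarsPaley

/-- `Arrows n N`: every colouring of the edges of the complete graph on `N` vertices with two
colours (the classes are `G` and its complement) contains a monochromatic copy, not necessarily
induced, of some tree on `n` vertices of diameter at most three. -/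
def Arrows (n N : ℕ) : Prop :=
  ∀ G : SimpleGraph (Fin N), ∃ T : SimpleGraph (Fin n), T.IsTree ∧ (∀ x y, T.dist x y ≤ 3) ∧
    (T.IsContained G ∨ T.IsContained Gᶜ)

/-- The rook graph on nine vertices (the Paley graph of order nine). -/
def rook : SimpleGraph (Fin 9) where
  Adj x y := x ≠ y ∧ (x.val / 3 = y.val / 3 ∨ x.val % 3 = y.val % 3)
  symm := ⟨fun _ _ h => ⟨h.1.symm, h.2.imp Eq.symm Eq.symm⟩⟩
  loopless := ⟨fun _ h => h.1 rfl⟩

instance : DecidableRel rook.Adj := fun x y => by
  unfold rook; infer_instance

theorem rook_union : ∀ u v : Fin 9, rook.Adj u v →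
    (Finset.univ.filter (fun y => rook.Adj u y ∨ rook.Adj v y)).card ≤ 7 := by
  decide

theorem rook_compl_union : ∀ u v : Fin 9, rookᶜ.Adj u v →
    (Finset.univ.filter (fun y => rookᶜ.Adj u y ∨ rookᶜ.Adj v y)).card ≤ 7 := by
  decide

variable {V : Type*} {T : SimpleGraph V}

theorem path_len (hT : T.IsTree) {a b : V} (p : T.Walk a b) (hp : p.IsPath) :
    p.length = T.dist a b := by
  obtain ⟨q, hq, hl⟩ := hT.connected.exists_path_of_dist a b
  have := hT.isAcyclic.path_unique ⟨p, hp⟩ ⟨q, hq⟩
  rw [← hl]
  exact congrArg (fun r : T.Path a b => r.1.length) this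

theorem dist_four (hT : T.IsTree) {a b c d e : V} (h1 : T.Adj a b) (h2 : T.Adj b c)
    (h3 : T.Adj c d) (h4 : T.Adj d e) (hac : a ≠ c) (had : a ≠ d) (hae : a ≠ e) (hbd : b ≠ d)
    (hbe : b ≠ e) (hce : c ≠ e) : T.dist a e = 4 := by
  have hp : (SimpleGraph.Walk.cons h1 (SimpleGraph.Walk.cons h2
      (SimpleGraph.Walk.cons h3 (SimpleGraph.Walk.cons h4 SimpleGraph.Walk.nil)))).IsPath := by
    rw [SimpleGraph.Walk.isPath_def]
    simp [h1.ne, h2.ne, h3.ne, h4.ne, hac, had, hae, hbd, hbe, hce]
  have := path_len hT _ hp
  simpa using this.symm

theorem exists_dominating_edge [Fintype V] [Nontrivial V] (hT : T.IsTree)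
    (hd : ∀ x y, T.dist x y ≤ 3) : ∃ u v, T.Adj u v ∧ ∀ y, T.Adj u y ∨ T.Adj v y := by
  classical
  set S : Finset (V × V) := Finset.univ.filter (fun p => T.Adj p.1 p.2) with hS
  have hne : S.Nonempty := by
    obtain ⟨x⟩ : Nonempty V := inferInstance
    obtain ⟨y, hy⟩ := hT.connected.preconnected.exists_adj_of_nontrivial x
    exact ⟨(x, y), by simp [hS, hy]⟩
  let f : V × V → ℕ := fun p => (Finset.univ.filter (fun y => T.Adj p.1 y ∨ T.Adj p.2 y)).card
  obtain ⟨⟨u, v⟩, huv, hmax⟩ := Finset.exists_max_image S f hne
  have huv' : T.Adj u v := by simpa [hS] using huv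
  refine ⟨u, v, huv', ?_⟩
  by_contra hcon
  push Not at hcon
  obtain ⟨y, hyu, hyv⟩ := hcon
  -- a key step, symmetric in the two ends
  have key : ∀ a b : V, T.Adj a b → (∀ c d, T.Adj c d → f (c, d) ≤ f (a, b)) →
      ¬ T.Adj a y → ¬ T.Adj b y → T.dist y b = T.dist y a + 1 → False := by
    intro a b hab hm hya hyb hdist
    have hya0 : y ≠ a := by
      rintro rfl
      exact hyb hab.symm
    have hyb0 : y ≠ b := by
      rintro rfl
      exact hya hab
    have h3 := hd y b
    have hda : T.dist y a ≤ 2 := by omega
    obtain ⟨p, hp, hl⟩ := hT.connected.exists_path_of_dist y a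
    -- the path has length two
    have hlen2 : T.dist y a = 2 := by
      have h0 : T.dist y a ≠ 0 := by
        intro h0
        exact hya0 ((hT.connected.dist_eq_zero_iff).1 h0)
      have h1 : T.dist y a ≠ 1 := by
        intro h1
        exact hya (SimpleGraph.dist_eq_one_iff_adj.1 h1).symm
      omega
    rw [hlen2] at hl
    cases p with
    | nil => simp at hl
    | @cons _ z _ hyz q =>
      cases q with
      | nil => simp at hl
      | @cons _ w _ hzw r =>
        cases r with
        | cons h r' => simp at hl
        | nil =>
          have hzb : z ≠ b := by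
            rintro rfl
            exact hyb hyz.symm
          -- b has no neighbour other than a
          have hleaf : ∀ w, T.Adj b w → w = a := by
            intro w hbw
            by_contra hwa
            by_cases hwy : w = y
            · subst hwy; exact hyb hbw
            by_cases hwz : w = z
            · subst hwz
              -- triangle
              have h1 : T.dist y b = 2 ∨ T.dist y b ≤ 2 := by
                right
                have := SimpleGraph.dist_le (SimpleGraph.Walk.cons hyz
                  (SimpleGraph.Walk.cons hbw.symm SimpleGraph.Walk.nil))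
                simpa using this
              omega
            have := dist_four hT hyz hzw hab hbw hya0 hyb0 (Ne.symm hwy) hzb
              (fun h => hwz h.symm) (fun h => hwa h.symm)
            have h5 := hd y w
            omega
          have hlt : f (a, b) < f (z, a) := by
            apply Finset.card_lt_card
            refine ⟨?_, ?_⟩
            · intro x hx
              simp only [Finset.mem_filter, Finset.mem_univ, true_and] at hx ⊢
              rcases hx with hx | hx
              · exact Or.inr hx
              · have := hleaf x hx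
                subst this
                exact Or.inl hzw
            · intro hsub
              have hy : y ∈ Finset.univ.filter (fun x => T.Adj a x ∨ T.Adj b x) := by
                apply hsub
                simp only [Finset.mem_filter, Finset.mem_univ, true_and]
                exact Or.inl hyz.symm
              simp only [Finset.mem_filter, Finset.mem_univ, true_and] at hy
              rcases hy with hy | hy
              · exact hya hy
              · exact hyb hy
          exact absurd (hm z a hzw) (by omega)
  have hm : ∀ c d, T.Adj c d → f (c, d) ≤ f (u, v) := by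
    intro c d hcd
    exact hmax (c, d) (by simp [hS, hcd])
  have hsymm : f (v, u) = f (u, v) := by
    simp only [f]
    congr 1
    ext x
    simp [or_comm]
  rcases hT.dist_eq_dist_add_one_of_adj y huv' with h | h
  · exact key v u huv'.symm (fun c d hcd => by rw [hsymm]; exact hm c d hcd) hyv hyu h
  · exact key u v huv' hm hyu hyv h

theorem not_contained (H : SimpleGraph (Fin 9)) [DecidableRel H.Adj]
    (hH : ∀ u v : Fin 9, H.Adj u v →
      (Finset.univ.filter (fun y => H.Adj u y ∨ H.Adj v y)).card ≤ 7)
    (T : SimpleGraph (Fin 8)) (hT : T.IsTree) (hd : ∀ x y, T.dist x y ≤ 3) :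
    ¬ T.IsContained H := by
  rintro ⟨f⟩
  obtain ⟨u, v, huv, hall⟩ := exists_dominating_edge hT hd
  have h1 := hH (f u) (f v) (f.toHom.map_adj huv)
  have h2 : (Finset.univ.image f).card ≤
      (Finset.univ.filter (fun y => H.Adj (f u) y ∨ H.Adj (f v) y)).card := by
    apply Finset.card_le_card
    intro x hx
    simp only [Finset.mem_image, Finset.mem_univ, true_and] at hx
    obtain ⟨y, rfl⟩ := hx
    simp only [Finset.mem_filter, Finset.mem_univ, true_and]
    exact (hall y).imp (fun h => f.toHom.map_adj h) (fun h => f.toHom.map_adj h)
  have h3 : (Finset.univ.image f).card = 8 := by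
    have hinj : Function.Injective (f : Fin 8 → Fin 9) := f.injective
    rw [Finset.card_image_of_injective _ hinj]
    simp
  omega

/-- There are `k ≥ 1` and `r` in `{1, 2, 3, 4}` such that every `N` for which all two-colourings of
the edges of the complete graph on `N` vertices contain a monochromatic tree on `4k - r + 1`
vertices of diameter at most three is larger than `5k - r`. -/
theorem result : ∃ k r : ℕ, 1 ≤ k ∧ (r = 1 ∨ r = 2 ∨ r = 3 ∨ r = 4) ∧
    ∀ N : ℕ, Arrows (4 * k - r + 1) N → 5 * k - r < N := by
  refine ⟨2, 1, by norm_num, Or.inl rfl, ?_⟩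
  intro N hN
  by_contra hlt
  have hle : N ≤ 9 := by omega
  let e : Fin N ↪ Fin 9 := Fin.castLEEmb hle
  obtain ⟨T, hT, hd, h | h⟩ := hN (rook.comap e)
  · exact not_contained rook rook_union T hT hd
      (h.trans ⟨(SimpleGraph.Embedding.comap e rook).toCopy⟩)
  · have hc : (rook.comap e)ᶜ = rookᶜ.comap e := by
      ext x y
      simp [SimpleGraph.compl_adj, e.injective.eq_iff]
    rw [hc] at h
    exact not_contained rookᶜ rook_compl_union T hT hd
      (h.trans ⟨(SimpleGraph.Embedding.comap e rookᶜ).toCopy⟩)

end Pool.Agent.Results.MP_f88521_co.DoubleStarsPaley
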